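import Mathlib

/-!
# MP_9a8b60: the separable modified De Palma–Trevisan quantity can be larger

`d = 4`, `N = 2`, `H₁ = σ_x ⊕ σ_z/2`, `H₂ = σ_z/2 ⊕ σ_x`, `ρ` and `σ` the normalised projections on
the two blocks: `W̃(ρ,σ) ≤ 1/4` while `W̃_sep(ρ,σ) ≥ 1/2`.
-/

open Matrix Finset
open scoped Kronecker ComplexOrder

namespace Pool.Agent.Results.MP_9a8b60_mp.SepLarger

/-- `d × d` complex matrices. -/
abbrev Mat (d : ℕ) : Type := Matrix (Fin d) (Fin d) ℂ

/-- matrices on `ℂᵈ ⊗ ℂᵈ`. -/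
abbrev Mat2 (d : ℕ) : Type := Matrix (Fin d × Fin d) (Fin d × Fin d) ℂ

variable {d N : ℕ}

/-- density matrices -/
def IsState {n : Type} [Fintype n] (ρ : Matrix n n ℂ) : Prop := ρ.PosSemidef ∧ ρ.trace = 1

/-- the marginal on the first factor -/
def marg1 (τ : Mat2 d) : Mat d := fun i j => ∑ k, τ (i, k) (j, k)

/-- the marginal on the second factor -/
def marg2 (τ : Mat2 d) : Mat d := fun i j => ∑ k, τ (k, i) (k, j)

/-- `τ` is a state on `ℂᵈ ⊗ ℂᵈ` with first marginal `ρᵀ` and second marginal `σ`. -/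
def IsCoupling (ρ σ : Mat d) (τ : Mat2 d) : Prop :=
  IsState τ ∧ marg1 τ = ρᵀ ∧ marg2 τ = σ

/-- `(Hᵀ ⊗ 1 - 1 ⊗ H)²` -/
noncomputable def costOp (H : Mat d) : Mat2 d :=
  (Hᵀ ⊗ₖ (1 : Mat d) - (1 : Mat d) ⊗ₖ H) * (Hᵀ ⊗ₖ (1 : Mat d) - (1 : Mat d) ⊗ₖ H)

/-- the cost of a coupling -/
noncomputable def cost (H : Fin N → Mat d) (τ : Mat2 d) : ℝ :=
  (1 / 2) * ∑ n, ((τ * costOp (H n)).trace).re

/-- `W(ρ,σ) = D_DPT(ρ,σ)²` -/
noncomputable def W (H : Fin N → Mat d) (ρ σ : Mat d) : ℝ :=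
  sInf {c | ∃ τ, IsCoupling ρ σ τ ∧ c = cost H τ}

/-- `W̃(ρ,σ)` -/
noncomputable def Wt (H : Fin N → Mat d) (ρ σ : Mat d) : ℝ :=
  W H ρ σ - (1 / 2) * (W H ρ ρ + W H σ σ)

/-- the rank one projection `|Ψ⟩⟨Ψ|` -/
def proj (Ψ : Fin d → ℂ) : Mat d := vecMulVec Ψ (star Ψ)

/-- unit vectors -/
def IsUnitVec (Ψ : Fin d → ℂ) : Prop := star Ψ ⬝ᵥ Ψ = 1

/-- `W_sep(ρ,σ) = D_DPT,sep(ρ,σ)²` -/
noncomputable def Wsep (H : Fin N → Mat d) (ρ σ : Mat d) : ℝ :=
  sInf {c | ∃ (m : ℕ) (p : Fin m → ℝ) (Ψ Φ : Fin m → Fin d → ℂ),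
    (∀ k, 0 < p k) ∧ ∑ k, p k = 1 ∧ (∀ k, IsUnitVec (Ψ k)) ∧ (∀ k, IsUnitVec (Φ k)) ∧
    ∑ k, (p k : ℂ) • proj (Ψ k) = ρ ∧ ∑ k, (p k : ℂ) • proj (Φ k) = σ ∧
    c = ∑ k, p k * W H (proj (Ψ k)) (proj (Φ k))}

/-- `W̃_sep(ρ,σ)` -/
noncomputable def Wtsep (H : Fin N → Mat d) (ρ σ : Mat d) : ℝ :=
  Wsep H ρ σ - (1 / 2) * (Wsep H ρ ρ + Wsep H σ σ)

/-! ## Traces -/

lemma trace_marg1 (τ : Mat2 d) (A : Mat d) :
    (τ * (A ⊗ₖ (1 : Mat d))).trace = (marg1 τ * A).trace := by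
  simp only [Matrix.trace, Matrix.diag_apply, Matrix.mul_apply, Fintype.sum_prod_type,
    Matrix.kroneckerMap_apply, Matrix.one_apply, marg1, mul_ite, mul_one, mul_zero]
  simp only [Finset.sum_ite_eq', Finset.mem_univ, if_true]
  refine Finset.sum_congr rfl fun i _ => ?_
  rw [Finset.sum_comm]
  refine Finset.sum_congr rfl fun j _ => ?_
  rw [Finset.sum_mul]

lemma trace_marg2 (τ : Mat2 d) (A : Mat d) :
    (τ * ((1 : Mat d) ⊗ₖ A)).trace = (marg2 τ * A).trace := by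
  simp only [Matrix.trace, Matrix.diag_apply, Matrix.mul_apply, Fintype.sum_prod_type,
    Matrix.kroneckerMap_apply, Matrix.one_apply, marg2, ite_mul, one_mul, zero_mul, mul_ite,
    mul_zero]
  have h : ∀ i k : Fin d, ∑ j : Fin d, ∑ l : Fin d,
      (if j = i then τ (i, k) (j, l) * A l k else 0) = ∑ l, τ (i, k) (i, l) * A l k := by
    intro i k
    rw [Finset.sum_comm]
    refine Finset.sum_congr rfl fun l _ => ?_
    rw [Finset.sum_ite_eq']
    simp
  simp only [h]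
  rw [Finset.sum_comm]
  refine Finset.sum_congr rfl fun k _ => ?_
  rw [Finset.sum_comm]
  refine Finset.sum_congr rfl fun l _ => ?_
  rw [Finset.sum_mul]

lemma costOp_eq (H : Mat d) : costOp H =
    (Hᵀ * Hᵀ) ⊗ₖ (1 : Mat d) + (1 : Mat d) ⊗ₖ (H * H) - (2 : ℂ) • (Hᵀ ⊗ₖ H) := by
  have h1 : (Hᵀ ⊗ₖ (1 : Mat d)) * (Hᵀ ⊗ₖ (1 : Mat d)) = (Hᵀ * Hᵀ) ⊗ₖ (1 : Mat d) := by
    rw [← Matrix.mul_kronecker_mul, mul_one]
  have h2 : ((1 : Mat d) ⊗ₖ H) * ((1 : Mat d) ⊗ₖ H) = (1 : Mat d) ⊗ₖ (H * H) := by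
    rw [← Matrix.mul_kronecker_mul, mul_one]
  have h3 : (Hᵀ ⊗ₖ (1 : Mat d)) * ((1 : Mat d) ⊗ₖ H) = Hᵀ ⊗ₖ H := by
    rw [← Matrix.mul_kronecker_mul, mul_one, one_mul]
  have h4 : ((1 : Mat d) ⊗ₖ H) * (Hᵀ ⊗ₖ (1 : Mat d)) = Hᵀ ⊗ₖ H := by
    rw [← Matrix.mul_kronecker_mul, mul_one, one_mul]
  rw [costOp, sub_mul, mul_sub, mul_sub, h1, h2, h3, h4, two_smul]
  abel

lemma trace_costOp {ρ σ : Mat d} {τ : Mat2 d} (h : IsCoupling ρ σ τ) (H : Mat d) :
    (τ * costOp H).trace = (ρ * (H * H)).trace + (σ * (H * H)).trace -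
      2 * (τ * (Hᵀ ⊗ₖ H)).trace := by
  rw [costOp_eq, mul_sub, mul_add, trace_sub, trace_add, trace_marg1, trace_marg2, h.2.1, h.2.2,
    Matrix.mul_smul, trace_smul, smul_eq_mul]
  congr 2
  have : ρᵀ * (Hᵀ * Hᵀ) = ((H * H) * ρ)ᵀ := by
    rw [transpose_mul, transpose_mul]
  rw [this, trace_transpose, trace_mul_comm]

lemma cost_nonneg {H : Fin N → Mat d} (hH : ∀ n, (H n).IsHermitian) {τ : Mat2 d}
    (hτ : τ.PosSemidef) : 0 ≤ cost H τ := by
  refine mul_nonneg (by norm_num) (Finset.sum_nonneg fun n _ => ?_)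
  set X : Mat2 d := (H n)ᵀ ⊗ₖ (1 : Mat d) - (1 : Mat d) ⊗ₖ (H n) with hX
  have hXH : Xᴴ = X := by
    rw [hX, conjTranspose_sub, conjTranspose_kronecker, conjTranspose_kronecker,
      conjTranspose_one, (hH n).eq]
    congr 2
    ext i j
    rw [conjTranspose_apply, transpose_apply, transpose_apply]
    exact (hH n).apply j i
  have h1 : (τ * costOp (H n)).trace = (X * τ * Xᴴ).trace := by
    rw [hXH, costOp, ← hX, ← mul_assoc, trace_mul_comm, ← mul_assoc]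
  rw [h1]
  have h2 := (hτ.mul_mul_conjTranspose_same X).trace_nonneg
  exact (Complex.le_def.1 h2).1

/-! ## Couplings of pure states -/

/-- expectation value -/
noncomputable def ev (H : Mat d) (Ψ : Fin d → ℂ) : ℂ := ∑ i, ∑ j, star (Ψ i) * H i j * Ψ j

/-- the vector `Ψ̄ ⊗ Φ` -/
noncomputable def tens (Ψ Φ : Fin d → ℂ) : Fin d × Fin d → ℂ := fun x => star (Ψ x.1) * Φ x.2

lemma unit_sum {Ψ : Fin d → ℂ} (h : IsUnitVec Ψ) : ∑ i, star (Ψ i) * Ψ i = 1 := h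

lemma tens_coupling {Ψ Φ : Fin d → ℂ} (hΨ : IsUnitVec Ψ) (hΦ : IsUnitVec Φ) :
    IsCoupling (proj Ψ) (proj Φ) (vecMulVec (tens Ψ Φ) (star (tens Ψ Φ))) := by
  have h1 := unit_sum hΨ
  have h2 := unit_sum hΦ
  refine ⟨⟨posSemidef_vecMulVec_self_star _, ?_⟩, ?_, ?_⟩
  · simp only [Matrix.trace, Matrix.diag_apply, vecMulVec_apply, Fintype.sum_prod_type, tens,
      Pi.star_apply, star_mul', star_star]
    have h3 : ∀ i j, star (Ψ i) * Φ j * (Ψ i * star (Φ j)) =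
        (star (Ψ i) * Ψ i) * (star (Φ j) * Φ j) := by
      intro i j; ring
    simp only [h3, ← Finset.mul_sum, h2, mul_one, h1]
  · ext i j
    simp only [marg1, vecMulVec_apply, tens, Pi.star_apply, star_mul', star_star, proj,
      transpose_apply]
    have h3 : ∀ k, star (Ψ i) * Φ k * (Ψ j * star (Φ k)) =
        (Ψ j * star (Ψ i)) * (star (Φ k) * Φ k) := by
      intro k; ring
    simp only [h3, ← Finset.mul_sum, h2, mul_one]
  · ext i j
    simp only [marg2, vecMulVec_apply, tens, Pi.star_apply, star_mul', star_star, proj]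
    have h3 : ∀ k, star (Ψ k) * Φ i * (Ψ k * star (Φ j)) =
        (Φ i * star (Φ j)) * (star (Ψ k) * Ψ k) := by
      intro k; ring
    simp only [h3, ← Finset.mul_sum, h1, mul_one]

/-- a vector orthogonal to the first marginal is killed -/
lemma kill1 {Ψ Φ : Fin d → ℂ} {τ : Mat2 d} (h : IsCoupling (proj Ψ) (proj Φ) τ) {u : Fin d → ℂ}
    (hu : ∑ i, Ψ i * u i = 0) (b : Fin d) :
    τ *ᵥ (fun x : Fin d × Fin d => u x.1 * if x.2 = b then 1 else 0) = 0 := by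
  have hq : ∀ b : Fin d, star (fun x : Fin d × Fin d => u x.1 * if x.2 = b then 1 else 0) ⬝ᵥ
      (τ *ᵥ (fun x : Fin d × Fin d => u x.1 * if x.2 = b then 1 else 0)) =
      ∑ i, ∑ j, star (u i) * τ (i, b) (j, b) * u j := by
    intro b
    simp only [dotProduct, mulVec, Fintype.sum_prod_type, Pi.star_apply, star_mul', mul_ite,
      mul_one, mul_zero, apply_ite star, star_one, star_zero, ite_mul, zero_mul,
      Finset.sum_ite_eq', Finset.mem_univ, if_true]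
    refine Finset.sum_congr rfl fun i _ => ?_
    rw [Finset.mul_sum]
    refine Finset.sum_congr rfl fun j _ => ?_
    ring
  have hsum : ∑ b, ∑ i, ∑ j, star (u i) * τ (i, b) (j, b) * u j = 0 := by
    rw [Finset.sum_comm]
    have h1 : ∀ i, ∑ b, ∑ j, star (u i) * τ (i, b) (j, b) * u j =
        ∑ j, star (u i) * (star (Ψ i) * Ψ j) * u j := by
      intro i
      rw [Finset.sum_comm]
      refine Finset.sum_congr rfl fun j _ => ?_
      rw [← Finset.sum_mul, ← Finset.mul_sum]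
      have h2 : marg1 τ i j = (proj Ψ)ᵀ i j := by rw [h.2.1]
      have h3 : ∑ k, τ (i, k) (j, k) = star (Ψ i) * Ψ j := by
        rw [show ∑ k, τ (i, k) (j, k) = marg1 τ i j from rfl, h2]
        simp only [proj, transpose_apply, vecMulVec_apply, Pi.star_apply]
        ring
      rw [h3]
    simp only [h1]
    have h4 : ∀ i, ∑ j, star (u i) * (star (Ψ i) * Ψ j) * u j = 0 := by
      intro i
      have h5 : ∀ j, star (u i) * (star (Ψ i) * Ψ j) * u j =
          (star (u i) * star (Ψ i)) * (Ψ j * u j) := by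
        intro j; ring
      simp only [h5, ← Finset.mul_sum, hu, mul_zero]
    simp only [h4, Finset.sum_const_zero]
  have hnn : ∀ b ∈ (Finset.univ : Finset (Fin d)),
      0 ≤ ∑ i, ∑ j, star (u i) * τ (i, b) (j, b) * u j := by
    intro b _
    rw [← hq b]
    exact h.1.1.dotProduct_mulVec_nonneg _
  have hz := (Finset.sum_eq_zero_iff_of_nonneg hnn).1 hsum b (Finset.mem_univ b)
  exact (h.1.1.dotProduct_mulVec_zero_iff _).1 (by rw [hq b]; exact hz)

/-- a vector orthogonal to the second marginal is killed -/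
lemma kill2 {Ψ Φ : Fin d → ℂ} {τ : Mat2 d} (h : IsCoupling (proj Ψ) (proj Φ) τ) {u : Fin d → ℂ}
    (hu : ∑ i, star (Φ i) * u i = 0) (b : Fin d) :
    τ *ᵥ (fun x : Fin d × Fin d => (if x.1 = b then 1 else 0) * u x.2) = 0 := by
  have hq : ∀ b : Fin d, star (fun x : Fin d × Fin d => (if x.1 = b then 1 else 0) * u x.2) ⬝ᵥ
      (τ *ᵥ (fun x : Fin d × Fin d => (if x.1 = b then 1 else 0) * u x.2)) =
      ∑ i, ∑ j, star (u i) * τ (b, i) (b, j) * u j := by
    intro b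
    simp only [dotProduct, mulVec, Fintype.sum_prod_type, Pi.star_apply, star_mul', mul_ite,
      mul_one, mul_zero, apply_ite star, star_one, star_zero, ite_mul, zero_mul, one_mul]
    rw [Finset.sum_comm]
    refine Finset.sum_congr rfl fun i _ => ?_
    rw [Finset.sum_ite_eq']
    simp only [Finset.mem_univ, if_true]
    rw [Finset.sum_comm, Finset.mul_sum]
    refine Finset.sum_congr rfl fun j _ => ?_
    rw [Finset.sum_ite_eq']
    simp only [Finset.mem_univ, if_true]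
    ring
  have hsum : ∑ b, ∑ i, ∑ j, star (u i) * τ (b, i) (b, j) * u j = 0 := by
    rw [Finset.sum_comm]
    have h1 : ∀ i, ∑ b, ∑ j, star (u i) * τ (b, i) (b, j) * u j =
        ∑ j, star (u i) * (Φ i * star (Φ j)) * u j := by
      intro i
      rw [Finset.sum_comm]
      refine Finset.sum_congr rfl fun j _ => ?_
      rw [← Finset.sum_mul, ← Finset.mul_sum]
      have h2 : marg2 τ i j = proj Φ i j := by rw [h.2.2]
      have h3 : ∑ k, τ (k, i) (k, j) = Φ i * star (Φ j) := by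
        rw [show ∑ k, τ (k, i) (k, j) = marg2 τ i j from rfl, h2]
        simp only [proj, vecMulVec_apply, Pi.star_apply]
      rw [h3]
    simp only [h1]
    have h4 : ∀ i, ∑ j, star (u i) * (Φ i * star (Φ j)) * u j = 0 := by
      intro i
      have h5 : ∀ j, star (u i) * (Φ i * star (Φ j)) * u j =
          (star (u i) * Φ i) * (star (Φ j) * u j) := by
        intro j; ring
      simp only [h5, ← Finset.mul_sum, hu, mul_zero]
    simp only [h4, Finset.sum_const_zero]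
  have hnn : ∀ b ∈ (Finset.univ : Finset (Fin d)),
      0 ≤ ∑ i, ∑ j, star (u i) * τ (b, i) (b, j) * u j := by
    intro b _
    rw [← hq b]
    exact h.1.1.dotProduct_mulVec_nonneg _
  have hz := (Finset.sum_eq_zero_iff_of_nonneg hnn).1 hsum b (Finset.mem_univ b)
  exact (h.1.1.dotProduct_mulVec_zero_iff _).1 (by rw [hq b]; exact hz)


lemma unit_sum' {Ψ : Fin d → ℂ} (h : IsUnitVec Ψ) : ∑ i, Ψ i * star (Ψ i) = 1 := by
  rw [← unit_sum h]
  exact Finset.sum_congr rfl fun i _ => mul_comm _ _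

lemma col1 {Ψ Φ : Fin d → ℂ} {τ : Mat2 d} (h : IsCoupling (proj Ψ) (proj Φ) τ)
    (hΨ : IsUnitVec Ψ) (x : Fin d × Fin d) (a b : Fin d) :
    τ x (a, b) = Ψ a * ∑ i, τ x (i, b) * star (Ψ i) := by
  have hu : ∑ i, Ψ i * ((if i = a then 1 else 0) - Ψ a * star (Ψ i)) = 0 := by
    have h1 : ∀ i, Ψ i * ((if i = a then 1 else 0) - Ψ a * star (Ψ i)) =
        (if i = a then Ψ i else 0) - Ψ a * (Ψ i * star (Ψ i)) := by
      intro i
      split_ifs <;> ring
    simp only [h1, Finset.sum_sub_distrib, Finset.sum_ite_eq', Finset.mem_univ, if_true,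
      ← Finset.mul_sum]
    rw [unit_sum' hΨ, mul_one, sub_self]
  have hk := congrFun (kill1 h hu b) x
  simp only [mulVec, dotProduct, Fintype.sum_prod_type, Pi.zero_apply, mul_ite, mul_one,
    mul_zero, Finset.sum_ite_eq', Finset.mem_univ, if_true] at hk
  have h2 : ∀ i, τ x (i, b) * ((if i = a then 1 else 0) - Ψ a * star (Ψ i)) =
      (if i = a then τ x (i, b) else 0) - Ψ a * (τ x (i, b) * star (Ψ i)) := by
    intro i
    split_ifs <;> ring
  simp only [h2, Finset.sum_sub_distrib, Finset.sum_ite_eq', Finset.mem_univ, if_true,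
    ← Finset.mul_sum] at hk
  exact sub_eq_zero.1 hk

lemma col2 {Ψ Φ : Fin d → ℂ} {τ : Mat2 d} (h : IsCoupling (proj Ψ) (proj Φ) τ)
    (hΦ : IsUnitVec Φ) (x : Fin d × Fin d) (a b : Fin d) :
    τ x (a, b) = star (Φ b) * ∑ j, τ x (a, j) * Φ j := by
  have hu : ∑ i, star (Φ i) * ((if i = b then 1 else 0) - star (Φ b) * Φ i) = 0 := by
    have h1 : ∀ i, star (Φ i) * ((if i = b then 1 else 0) - star (Φ b) * Φ i) =
        (if i = b then star (Φ i) else 0) - star (Φ b) * (star (Φ i) * Φ i) := by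
      intro i
      split_ifs <;> ring
    simp only [h1, Finset.sum_sub_distrib, Finset.sum_ite_eq', Finset.mem_univ, if_true,
      ← Finset.mul_sum]
    rw [unit_sum hΦ, mul_one, sub_self]
  have hk := congrFun (kill2 h hu a) x
  simp only [mulVec, dotProduct, Fintype.sum_prod_type, Pi.zero_apply, ite_mul, one_mul,
    zero_mul, mul_ite, mul_zero] at hk
  have h3 : ∀ i, ∑ j, (if i = a then τ x (i, j) *
      ((if j = b then 1 else 0) - star (Φ b) * Φ j) else 0) =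
      if i = a then ∑ j, τ x (i, j) * ((if j = b then 1 else 0) - star (Φ b) * Φ j) else 0 := by
    intro i
    split_ifs <;> simp
  simp only [h3, Finset.sum_ite_eq', Finset.mem_univ, if_true] at hk
  have h2 : ∀ j, τ x (a, j) * ((if j = b then 1 else 0) - star (Φ b) * Φ j) =
      (if j = b then τ x (a, j) else 0) - star (Φ b) * (τ x (a, j) * Φ j) := by
    intro i
    split_ifs <;> ring
  simp only [h2, Finset.sum_sub_distrib, Finset.sum_ite_eq', Finset.mem_univ, if_true,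
    ← Finset.mul_sum] at hk
  exact sub_eq_zero.1 hk

lemma tens_unit {Ψ Φ : Fin d → ℂ} (hΨ : IsUnitVec Ψ) (hΦ : IsUnitVec Φ) :
    ∑ x, star (tens Ψ Φ x) * tens Ψ Φ x = 1 := by
  have h1 := unit_sum hΨ
  have h2 := unit_sum hΦ
  simp only [Fintype.sum_prod_type, tens, star_mul', star_star]
  have h3 : ∀ i j, Ψ i * star (Φ j) * (star (Ψ i) * Φ j) =
      (star (Ψ i) * Ψ i) * (star (Φ j) * Φ j) := by
    intro i j; ring
  simp only [h3, ← Finset.mul_sum, h2, mul_one, h1]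

/-- the only coupling of two pure states is the product -/
lemma pure_coupling {Ψ Φ : Fin d → ℂ} (hΨ : IsUnitVec Ψ) (hΦ : IsUnitVec Φ) {τ : Mat2 d}
    (h : IsCoupling (proj Ψ) (proj Φ) τ) :
    τ = vecMulVec (tens Ψ Φ) (star (tens Ψ Φ)) := by
  set t := tens Ψ Φ with ht
  obtain ⟨w, hw⟩ : ∃ w : Fin d × Fin d → ℂ, ∀ x y, τ x y = w x * star (t y) := by
    refine ⟨fun x => ∑ i, ∑ j, τ x (i, j) * Φ j * star (Ψ i), ?_⟩
    rintro x ⟨a, b⟩
    rw [col1 h hΨ x a b]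
    have h1 : ∀ i, τ x (i, b) * star (Ψ i) =
        star (Φ b) * ∑ j, τ x (i, j) * Φ j * star (Ψ i) := by
      intro i
      rw [col2 h hΦ x i b, mul_assoc, Finset.sum_mul]
    simp only [h1, ← Finset.mul_sum]
    simp only [ht, tens, star_mul', star_star]
    ring
  have hherm : ∀ x y, τ x y = star (τ y x) := fun x y => (h.1.1.isHermitian.apply x y).symm
  have hu := tens_unit hΨ hΦ
  rw [← ht] at hu
  obtain ⟨c, hc⟩ : ∃ c : ℂ, ∀ x, w x = c * t x := by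
    refine ⟨∑ y, star (w y) * t y, fun x => ?_⟩
    have h1 : ∀ y, w x * (star (t y) * t y) = star (w y) * t y * t x := by
      intro y
      have h2 := hherm x y
      rw [hw, hw, star_mul', star_star] at h2
      linear_combination (t y) * h2
    calc w x = w x * ∑ y, star (t y) * t y := by rw [hu, mul_one]
      _ = ∑ y, star (w y) * t y * t x := by
        rw [Finset.mul_sum]
        exact Finset.sum_congr rfl fun y _ => h1 y
      _ = _ := by rw [Finset.sum_mul]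
  have htr := h.1.2
  have hc1 : c = 1 := by
    rw [Matrix.trace] at htr
    simp only [Matrix.diag_apply, hw, hc] at htr
    have h3 : ∀ x, c * t x * star (t x) = c * (star (t x) * t x) := by
      intro x; ring
    simp only [h3, ← Finset.mul_sum, hu, mul_one] at htr
    exact htr
  ext x y
  rw [hw, hc, hc1, one_mul, vecMulVec_apply, Pi.star_apply]

lemma trace_proj (M : Mat d) (Ψ : Fin d → ℂ) : (proj Ψ * M).trace = ev M Ψ := by
  simp only [Matrix.trace, Matrix.diag_apply, Matrix.mul_apply, proj, vecMulVec_apply,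
    Pi.star_apply, ev]
  rw [Finset.sum_comm]
  refine Finset.sum_congr rfl fun i _ => Finset.sum_congr rfl fun j _ => ?_
  ring

lemma trace_tens (H : Mat d) (Ψ Φ : Fin d → ℂ) :
    (vecMulVec (tens Ψ Φ) (star (tens Ψ Φ)) * (Hᵀ ⊗ₖ H)).trace = ev H Ψ * ev H Φ := by
  simp only [Matrix.trace, Matrix.diag_apply, Matrix.mul_apply, vecMulVec_apply,
    Pi.star_apply, ev, Fintype.sum_prod_type, tens, star_mul', star_star,
    Matrix.kroneckerMap_apply, transpose_apply]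
  have h1 : ∀ a b a' b', star (Ψ a) * Φ b * (Ψ a' * star (Φ b')) * (H a a' * H b' b) =
      (star (Ψ a) * H a a' * Ψ a') * (star (Φ b') * H b' b * Φ b) := by
    intro a b a' b'; ring
  simp only [h1, ← Finset.mul_sum, ← Finset.sum_mul]
  congr 1
  rw [Finset.sum_comm]
  exact Finset.sum_congr rfl fun i _ => by rw [Finset.sum_mul]

/-- the value of the cost between pure states -/
noncomputable def pc (H : Fin N → Mat d) (Ψ Φ : Fin d → ℂ) : ℝ :=
  (1 / 2) * ∑ n, (ev (H n * H n) Ψ + ev (H n * H n) Φ - 2 * (ev (H n) Ψ * ev (H n) Φ)).re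

lemma W_pure (H : Fin N → Mat d) {Ψ Φ : Fin d → ℂ} (hΨ : IsUnitVec Ψ) (hΦ : IsUnitVec Φ) :
    W H (proj Ψ) (proj Φ) = pc H Ψ Φ := by
  have h1 : cost H (vecMulVec (tens Ψ Φ) (star (tens Ψ Φ))) = pc H Ψ Φ := by
    rw [cost, pc]
    congr 1
    refine Finset.sum_congr rfl fun n _ => ?_
    rw [trace_costOp (tens_coupling hΨ hΦ), trace_proj, trace_proj, trace_tens]
  have h2 : {c | ∃ τ, IsCoupling (proj Ψ) (proj Φ) τ ∧ c = cost H τ} = {pc H Ψ Φ} := by
    ext c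
    simp only [Set.mem_ofPred_eq, Set.mem_singleton_iff]
    constructor
    · rintro ⟨τ, hτ, rfl⟩
      rw [pure_coupling hΨ hΦ hτ, h1]
    · rintro rfl
      exact ⟨_, tens_coupling hΨ hΦ, h1.symm⟩
  rw [W, h2, csInf_singleton]

lemma W_nonneg {H : Fin N → Mat d} (hH : ∀ n, (H n).IsHermitian) (ρ σ : Mat d) :
    0 ≤ W H ρ σ := by
  refine Real.sInf_nonneg ?_
  rintro c ⟨τ, hτ, rfl⟩
  exact cost_nonneg hH hτ.1.1

lemma W_le {H : Fin N → Mat d} (hH : ∀ n, (H n).IsHermitian) {ρ σ : Mat d} {τ : Mat2 d}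
    (hτ : IsCoupling ρ σ τ) : W H ρ σ ≤ cost H τ := by
  refine csInf_le ⟨0, ?_⟩ ⟨τ, hτ, rfl⟩
  rintro c ⟨τ', hτ', rfl⟩
  exact cost_nonneg hH hτ'.1.1

lemma Wsep_bdd {H : Fin N → Mat d} (hH : ∀ n, (H n).IsHermitian) (ρ σ : Mat d) :
    BddBelow {c | ∃ (m : ℕ) (p : Fin m → ℝ) (Ψ Φ : Fin m → Fin d → ℂ),
    (∀ k, 0 < p k) ∧ ∑ k, p k = 1 ∧ (∀ k, IsUnitVec (Ψ k)) ∧ (∀ k, IsUnitVec (Φ k)) ∧
    ∑ k, (p k : ℂ) • proj (Ψ k) = ρ ∧ ∑ k, (p k : ℂ) • proj (Φ k) = σ ∧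
    c = ∑ k, p k * W H (proj (Ψ k)) (proj (Φ k))} := by
  refine ⟨0, ?_⟩
  rintro c ⟨m, p, Ψ, Φ, hp, -, -, -, -, -, rfl⟩
  exact Finset.sum_nonneg fun k _ => mul_nonneg (hp k).le (W_nonneg hH _ _)


/-! ## The example -/

/-- `H₁ = σ_x ⊕ σ_z/2` -/
noncomputable def H1 : Mat 4 := !![0, 1, 0, 0; 1, 0, 0, 0; 0, 0, 1/2, 0; 0, 0, 0, -1/2]

/-- `H₂ = σ_z/2 ⊕ σ_x` -/
noncomputable def H2 : Mat 4 := !![1/2, 0, 0, 0; 0, -1/2, 0, 0; 0, 0, 0, 1; 0, 0, 1, 0]

/-- the two observables -/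
noncomputable def HH : Fin 2 → Mat 4 := ![H1, H2]

/-- `ρ = diag(1/2, 1/2, 0, 0)` -/
noncomputable def rho : Mat 4 := Matrix.diagonal ![1/2, 1/2, 0, 0]

/-- `σ = diag(0, 0, 1/2, 1/2)` -/
noncomputable def sig : Mat 4 := Matrix.diagonal ![0, 0, 1/2, 1/2]

lemma HH_herm (n : Fin 2) : (HH n).IsHermitian := by
  fin_cases n
  · show H1.IsHermitian
    ext i j
    fin_cases i <;> fin_cases j <;> simp [H1, conjTranspose_apply]
  · show H2.IsHermitian
    ext i j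
    fin_cases i <;> fin_cases j <;> simp [H2, conjTranspose_apply]

lemma state_rho : IsState rho := by
  constructor
  · refine Matrix.posSemidef_diagonal_iff.2 fun i => ?_
    fin_cases i <;> simp
  · rw [rho, Matrix.trace_diagonal, Fin.sum_univ_four]
    simp
    norm_num

lemma state_sig : IsState sig := by
  constructor
  · refine Matrix.posSemidef_diagonal_iff.2 fun i => ?_
    fin_cases i <;> simp
  · rw [sig, Matrix.trace_diagonal, Fin.sum_univ_four]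
    simp
    norm_num

lemma H1sq : H1 * H1 = Matrix.diagonal ![1, 1, 1/4, 1/4] := by
  ext i j
  rw [H1, Matrix.mul_apply, Fin.sum_univ_four]
  fin_cases i <;> fin_cases j <;> simp <;> norm_num

lemma H2sq : H2 * H2 = Matrix.diagonal ![1/4, 1/4, 1, 1] := by
  ext i j
  rw [H2, Matrix.mul_apply, Fin.sum_univ_four]
  fin_cases i <;> fin_cases j <;> simp <;> norm_num

lemma ev1 (Ψ : Fin 4 → ℂ) : ev H1 Ψ = star (Ψ 0) * Ψ 1 + star (Ψ 1) * Ψ 0 +
    1 / 2 * (star (Ψ 2) * Ψ 2) - 1 / 2 * (star (Ψ 3) * Ψ 3) := by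
  simp only [ev, Fin.sum_univ_four, H1]
  simp
  ring

lemma ev2 (Ψ : Fin 4 → ℂ) : ev H2 Ψ = star (Ψ 2) * Ψ 3 + star (Ψ 3) * Ψ 2 +
    1 / 2 * (star (Ψ 0) * Ψ 0) - 1 / 2 * (star (Ψ 1) * Ψ 1) := by
  simp only [ev, Fin.sum_univ_four, H2]
  simp
  ring

lemma ev1sq (Ψ : Fin 4 → ℂ) : ev (H1 * H1) Ψ = star (Ψ 0) * Ψ 0 + star (Ψ 1) * Ψ 1 +
    1 / 4 * (star (Ψ 2) * Ψ 2) + 1 / 4 * (star (Ψ 3) * Ψ 3) := by
  rw [H1sq]
  simp only [ev, Fin.sum_univ_four]
  simp [Matrix.diagonal_apply]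
  ring

lemma ev2sq (Ψ : Fin 4 → ℂ) : ev (H2 * H2) Ψ = 1 / 4 * (star (Ψ 0) * Ψ 0) +
    1 / 4 * (star (Ψ 1) * Ψ 1) + star (Ψ 2) * Ψ 2 + star (Ψ 3) * Ψ 3 := by
  rw [H2sq]
  simp only [ev, Fin.sum_univ_four]
  simp [Matrix.diagonal_apply]
  ring

lemma pc_eq {Ψ Φ : Fin 4 → ℂ} (hΨ : IsUnitVec Ψ) (hΦ : IsUnitVec Φ) :
    pc HH Ψ Φ = 5 / 4 - (ev H1 Ψ * ev H1 Φ + ev H2 Ψ * ev H2 Φ).re := by
  have h1 := unit_sum hΨ
  have h2 := unit_sum hΦ
  rw [Fin.sum_univ_four] at h1 h2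
  have h3 : ev (H1 * H1) Ψ + ev (H2 * H2) Ψ = 5 / 4 := by
    rw [ev1sq, ev2sq]
    linear_combination (5 / 4) * h1
  have h4 : ev (H1 * H1) Φ + ev (H2 * H2) Φ = 5 / 4 := by
    rw [ev1sq, ev2sq]
    linear_combination (5 / 4) * h2
  have h5 : (ev (H1 * H1) Ψ + ev (H1 * H1) Φ - 2 * (ev H1 Ψ * ev H1 Φ)) +
      (ev (H2 * H2) Ψ + ev (H2 * H2) Φ - 2 * (ev H2 Ψ * ev H2 Φ)) =
      5 / 2 - 2 * (ev H1 Ψ * ev H1 Φ + ev H2 Ψ * ev H2 Φ) := by
    linear_combination h3 + h4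
  have h6 := congrArg Complex.re h5
  have h7 : pc HH Ψ Φ = (1 / 2) *
      ((ev (H1 * H1) Ψ + ev (H1 * H1) Φ - 2 * (ev H1 Ψ * ev H1 Φ)) +
      (ev (H2 * H2) Ψ + ev (H2 * H2) Φ - 2 * (ev H2 Ψ * ev H2 Φ))).re := by
    rw [pc, Fin.sum_univ_two, Complex.add_re]
    rfl
  rw [h7, h6]
  simp only [Complex.sub_re, Complex.mul_re, Complex.re_ofNat, Complex.im_ofNat, Complex.add_re,
    Complex.div_re, Complex.add_im]
  norm_num
  ring


lemma proj_apply (Ψ : Fin d → ℂ) (i j : Fin d) : proj Ψ i j = Ψ i * star (Ψ j) := rfl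

lemma bloch {a b c e : ℝ} (h : a ^ 2 + b ^ 2 + c ^ 2 + e ^ 2 = 1) :
    (2 * (a * c + b * e)) ^ 2 + (a ^ 2 + b ^ 2 - c ^ 2 - e ^ 2) ^ 2 ≤ 1 := by
  have h1 : (a ^ 2 + b ^ 2 + c ^ 2 + e ^ 2) ^ 2 = 1 := by rw [h]; norm_num
  nlinarith [sq_nonneg (a * e - b * c)]

/-- for pure states in different blocks the cost is at least `3/4` -/
lemma pc_blocks {Ψ Φ : Fin 4 → ℂ} (hΨ : IsUnitVec Ψ) (hΦ : IsUnitVec Φ)
    (h2 : Ψ 2 = 0) (h3 : Ψ 3 = 0) (h0 : Φ 0 = 0) (h1 : Φ 1 = 0) : 3 / 4 ≤ pc HH Ψ Φ := by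
  have hu := congrArg Complex.re (unit_sum hΨ)
  have hv := congrArg Complex.re (unit_sum hΦ)
  rw [pc_eq hΨ hΦ, ev1, ev1, ev2, ev2]
  rw [Fin.sum_univ_four] at hu hv
  rw [h2, h3] at hu ⊢
  rw [h0, h1] at hv ⊢
  simp only [Complex.star_def, map_zero, mul_zero, add_zero, zero_add, sub_zero, Complex.add_re,
    Complex.add_im, Complex.mul_re, Complex.mul_im, Complex.sub_re, Complex.sub_im,
    Complex.conj_re, Complex.conj_im, Complex.one_re, Complex.div_ofNat_re,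
    Complex.div_ofNat_im, Complex.one_im, zero_div, zero_mul] at hu hv ⊢
  have hb1 := bloch (a := (Ψ 0).re) (b := (Ψ 0).im) (c := (Ψ 1).re) (e := (Ψ 1).im)
    (by nlinarith [hu])
  have hb2 := bloch (a := (Φ 2).re) (b := (Φ 2).im) (c := (Φ 3).re) (e := (Φ 3).im)
    (by nlinarith [hv])
  set a := (Ψ 0).re
  set b := (Ψ 0).im
  set c := (Ψ 1).re
  set e := (Ψ 1).im
  set f := (Φ 2).re
  set g := (Φ 2).im
  set k := (Φ 3).re
  set l := (Φ 3).im
  nlinarith [sq_nonneg (2 * (a * c + b * e) - (f ^ 2 + g ^ 2 - k ^ 2 - l ^ 2)),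
    sq_nonneg (2 * (f * k + g * l) - (a ^ 2 + b ^ 2 - c ^ 2 - e ^ 2))]

/-- vectors in a decomposition vanish where the diagonal of the state vanishes -/
lemma supp {m : ℕ} {p : Fin m → ℝ} {Ψ : Fin m → Fin 4 → ℂ} (hp : ∀ k, 0 < p k) {R : Mat 4}
    (h : ∑ k, (p k : ℂ) • proj (Ψ k) = R) {i : Fin 4} (hi : R i i = 0) (k : Fin m) :
    Ψ k i = 0 := by
  have h1 : ∑ k, (p k : ℂ) * (Ψ k i * star (Ψ k i)) = 0 := by
    rw [← hi, ← h, Matrix.sum_apply]
    rfl
  have h2 : ∀ k, (p k : ℂ) * (Ψ k i * star (Ψ k i)) =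
      ((p k * Complex.normSq (Ψ k i) : ℝ) : ℂ) := by
    intro k
    rw [Complex.star_def, Complex.mul_conj, Complex.ofReal_mul]
  simp only [h2] at h1
  rw [← Complex.ofReal_sum, Complex.ofReal_eq_zero] at h1
  have h3 := (Finset.sum_eq_zero_iff_of_nonneg (fun k _ =>
    mul_nonneg (hp k).le (Complex.normSq_nonneg _))).1 h1 k (Finset.mem_univ k)
  rcases mul_eq_zero.1 h3 with h4 | h4
  · exact absurd h4 (hp k).ne'
  · exact Complex.normSq_eq_zero.1 h4

/-- the matrix of the entangled coupling -/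
noncomputable def M : Matrix (Fin 4) (Fin 4) ℂ :=
  !![0, 0, 1/2, 1/2; 0, 0, 1/2, -1/2; 0, 0, 0, 0; 0, 0, 0, 0]

/-- the entangled coupling -/
noncomputable def tau : Mat2 4 :=
  vecMulVec (fun x => M x.1 x.2) (star fun x => M x.1 x.2)

lemma tau_apply (a b a' b' : Fin 4) : tau (a, b) (a', b') = M a b * star (M a' b') := rfl

lemma tau_coupling : IsCoupling rho sig tau := by
  refine ⟨⟨posSemidef_vecMulVec_self_star _, ?_⟩, ?_, ?_⟩
  · simp only [Matrix.trace, Matrix.diag_apply, Fintype.sum_prod_type, tau_apply,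
      Fin.sum_univ_four, M]
    simp
    norm_num
  · ext i j
    simp only [marg1, tau_apply, Fin.sum_univ_four, M, rho, transpose_apply]
    fin_cases i <;> fin_cases j <;> simp <;> norm_num
  · ext i j
    simp only [marg2, tau_apply, Fin.sum_univ_four, M, sig]
    fin_cases i <;> fin_cases j <;> simp <;> norm_num

lemma tr1 : (tau * (H1ᵀ ⊗ₖ H1)).trace = 1 / 2 := by
  simp only [Matrix.trace, Matrix.diag_apply, Matrix.mul_apply, Fintype.sum_prod_type,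
    tau_apply, Matrix.kroneckerMap_apply, transpose_apply, Fin.sum_univ_four, M, H1]
  simp
  norm_num

lemma tr2 : (tau * (H2ᵀ ⊗ₖ H2)).trace = 1 / 2 := by
  simp only [Matrix.trace, Matrix.diag_apply, Matrix.mul_apply, Fintype.sum_prod_type,
    tau_apply, Matrix.kroneckerMap_apply, transpose_apply, Fin.sum_univ_four, M, H2]
  simp
  norm_num

lemma cost_tau : cost HH tau = 1 / 4 := by
  have h1 : (tau * costOp H1).trace = 1 / 4 := by
    rw [trace_costOp tau_coupling, tr1, H1sq, rho, sig, Matrix.diagonal_mul_diagonal,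
      Matrix.diagonal_mul_diagonal, Matrix.trace_diagonal, Matrix.trace_diagonal,
      Fin.sum_univ_four, Fin.sum_univ_four]
    simp
    norm_num
  have h2 : (tau * costOp H2).trace = 1 / 4 := by
    rw [trace_costOp tau_coupling, tr2, H2sq, rho, sig, Matrix.diagonal_mul_diagonal,
      Matrix.diagonal_mul_diagonal, Matrix.trace_diagonal, Matrix.trace_diagonal,
      Fin.sum_univ_four, Fin.sum_univ_four]
    simp
    norm_num
  have h3 : cost HH tau = 1 / 2 * (((tau * costOp H1).trace).re +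
      ((tau * costOp H2).trace).re) := by
    rw [cost, Fin.sum_univ_two]
    rfl
  rw [h3, h1, h2]
  norm_num

lemma Wt_le : Wt HH rho sig ≤ 1 / 4 := by
  have h1 := W_le HH_herm tau_coupling
  rw [cost_tau] at h1
  have h2 := W_nonneg HH_herm rho rho
  have h3 := W_nonneg HH_herm sig sig
  rw [Wt]
  linarith

lemma Wsep_ge : 3 / 4 ≤ Wsep HH rho sig := by
  refine le_csInf ?_ ?_
  · refine ⟨_, 2, ![1/2, 1/2], ![![1, 0, 0, 0], ![0, 1, 0, 0]], ![![0, 0, 1, 0], ![0, 0, 0, 1]],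
      ?_, ?_, ?_, ?_, ?_, ?_, rfl⟩
    · intro k
      fin_cases k <;> simp
    · simp
      norm_num
    · intro k
      rw [IsUnitVec, dotProduct, Fin.sum_univ_four]
      fin_cases k <;> simp
    · intro k
      rw [IsUnitVec, dotProduct, Fin.sum_univ_four]
      fin_cases k <;> simp
    · rw [Fin.sum_univ_two]
      ext i j
      rw [Matrix.add_apply, Matrix.smul_apply, Matrix.smul_apply, proj_apply, proj_apply]
      fin_cases i <;> fin_cases j <;> simp [rho]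
    · rw [Fin.sum_univ_two]
      ext i j
      rw [Matrix.add_apply, Matrix.smul_apply, Matrix.smul_apply, proj_apply, proj_apply]
      fin_cases i <;> fin_cases j <;> simp [sig]
  · rintro c ⟨m, p, Ψ, Φ, hp, hs, hΨ, hΦ, hρ, hσ, rfl⟩
    have h1 : ∀ k, 3 / 4 ≤ W HH (proj (Ψ k)) (proj (Φ k)) := by
      intro k
      rw [W_pure HH (hΨ k) (hΦ k)]
      exact pc_blocks (hΨ k) (hΦ k) (supp hp hρ (by simp [rho]) k)
        (supp hp hρ (by simp [rho]) k) (supp hp hσ (by simp [sig]) k)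
        (supp hp hσ (by simp [sig]) k)
    calc (3 / 4 : ℝ) = ∑ k, p k * (3 / 4) := by rw [← Finset.sum_mul, hs, one_mul]
      _ ≤ _ := Finset.sum_le_sum fun k _ => mul_le_mul_of_nonneg_left (h1 k) (hp k).le

lemma Wsep_rho : Wsep HH rho rho ≤ 193 / 625 := by
  have hu1 : IsUnitVec (![3/5, 4/5, 0, 0] : Fin 4 → ℂ) := by
    rw [IsUnitVec, dotProduct, Fin.sum_univ_four]
    simp
    norm_num
  have hu2 : IsUnitVec (![4/5, -3/5, 0, 0] : Fin 4 → ℂ) := by
    rw [IsUnitVec, dotProduct, Fin.sum_univ_four]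
    simp
    norm_num
  refine csInf_le (Wsep_bdd HH_herm _ _) ⟨2, ![1/2, 1/2],
    ![![3/5, 4/5, 0, 0], ![4/5, -3/5, 0, 0]], ![![3/5, 4/5, 0, 0], ![4/5, -3/5, 0, 0]],
      ?_, ?_, ?_, ?_, ?_, ?_, ?_⟩
  · intro k
    fin_cases k <;> simp
  · simp
    norm_num
  · intro k
    fin_cases k
    · exact hu1
    · exact hu2
  · intro k
    fin_cases k
    · exact hu1
    · exact hu2
  · rw [Fin.sum_univ_two]
    ext i j
    rw [Matrix.add_apply, Matrix.smul_apply, Matrix.smul_apply, proj_apply, proj_apply]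
    fin_cases i <;> fin_cases j <;> simp [rho] <;> norm_num
  · rw [Fin.sum_univ_two]
    ext i j
    rw [Matrix.add_apply, Matrix.smul_apply, Matrix.smul_apply, proj_apply, proj_apply]
    fin_cases i <;> fin_cases j <;> simp [rho] <;> norm_num
  · rw [Fin.sum_univ_two]
    show (193 / 625 : ℝ) = 1 / 2 * W HH (proj ![3/5, 4/5, 0, 0]) (proj ![3/5, 4/5, 0, 0]) +
      1 / 2 * W HH (proj ![4/5, -3/5, 0, 0]) (proj ![4/5, -3/5, 0, 0])
    rw [W_pure HH hu1 hu1, W_pure HH hu2 hu2, pc_eq hu1 hu1, pc_eq hu2 hu2, ev1, ev1, ev2, ev2]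
    simp
    norm_num

lemma Wsep_sig : Wsep HH sig sig ≤ 193 / 625 := by
  have hu1 : IsUnitVec (![0, 0, 3/5, 4/5] : Fin 4 → ℂ) := by
    rw [IsUnitVec, dotProduct, Fin.sum_univ_four]
    simp
    norm_num
  have hu2 : IsUnitVec (![0, 0, 4/5, -3/5] : Fin 4 → ℂ) := by
    rw [IsUnitVec, dotProduct, Fin.sum_univ_four]
    simp
    norm_num
  refine csInf_le (Wsep_bdd HH_herm _ _) ⟨2, ![1/2, 1/2],
    ![![0, 0, 3/5, 4/5], ![0, 0, 4/5, -3/5]], ![![0, 0, 3/5, 4/5], ![0, 0, 4/5, -3/5]],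
      ?_, ?_, ?_, ?_, ?_, ?_, ?_⟩
  · intro k
    fin_cases k <;> simp
  · simp
    norm_num
  · intro k
    fin_cases k
    · exact hu1
    · exact hu2
  · intro k
    fin_cases k
    · exact hu1
    · exact hu2
  · rw [Fin.sum_univ_two]
    ext i j
    rw [Matrix.add_apply, Matrix.smul_apply, Matrix.smul_apply, proj_apply, proj_apply]
    fin_cases i <;> fin_cases j <;> simp [sig] <;> norm_num
  · rw [Fin.sum_univ_two]
    ext i j
    rw [Matrix.add_apply, Matrix.smul_apply, Matrix.smul_apply, proj_apply, proj_apply]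
    fin_cases i <;> fin_cases j <;> simp [sig] <;> norm_num
  · rw [Fin.sum_univ_two]
    show (193 / 625 : ℝ) = 1 / 2 * W HH (proj ![0, 0, 3/5, 4/5]) (proj ![0, 0, 3/5, 4/5]) +
      1 / 2 * W HH (proj ![0, 0, 4/5, -3/5]) (proj ![0, 0, 4/5, -3/5])
    rw [W_pure HH hu1 hu1, W_pure HH hu2 hu2, pc_eq hu1 hu1, pc_eq hu2 hu2, ev1, ev1, ev2, ev2]
    simp
    norm_num

/-- There are two Hermitian matrices on `ℂ⁴` and two states `ρ, σ` with
`W̃(ρ,σ) ≤ 1/4 < 11/25 ≤ W̃_sep(ρ,σ)`. -/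
theorem result : ∃ (H : Fin 2 → Mat 4) (ρ σ : Mat 4), (∀ n, (H n).IsHermitian) ∧
    IsState ρ ∧ IsState σ ∧ Wt H ρ σ ≤ 1 / 4 ∧ 11 / 25 ≤ Wtsep H ρ σ := by
  refine ⟨HH, rho, sig, HH_herm, state_rho, state_sig, Wt_le, ?_⟩
  have h1 := Wsep_ge
  have h2 := Wsep_rho
  have h3 := Wsep_sig
  rw [Wtsep]
  linarith

end Pool.Agent.Results.MP_9a8b60_mp.SepLarger
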